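import Mathlib
import Pool.Agent.Helper40.SSQ.Defs
import Pool.Agent.Helper74.SSQ.Color

/-! Module SSQ-D: the base case. -/

set_option autoImplicit false

namespace Pool.Agent.Helper40.SSQ

open Finset

/-- König with colours in `Fin w` and all edges. -/
theorem konig_fin {E L R : Type} [Fintype E] [Fintype L] [Fintype R] (l : E → L) (r : E → R)
    (w : ℕ) (hl : ∀ u, cnt (fun e => l e = u) = w) (hr : ∀ v, cnt (fun e => r e = v) = w) :
    ∃ c : E → Fin w, (∀ u i, ∃! e, l e = u ∧ c e = i) ∧ (∀ v i, ∃! e, r e = v ∧ c e = i) := by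
  classical
  obtain ⟨c, h0, h1, h2⟩ := Pool.Agent.Helper74.SSQ.konig l r w Finset.univ
    (fun u => by rw [← cnt_eq_card]; exact hl u) (fun v => by rw [← cnt_eq_card]; exact hr v)
  refine ⟨fun e => ⟨c e, h0 e (Finset.mem_univ _)⟩, fun u i => ?_, fun v i => ?_⟩
  · apply exists_unique_of_cnt_eq_one
    rw [cnt_eq_card, ← h1 u i.1 i.2]
    congr 1
    ext e
    simp only [Finset.mem_filter, Finset.mem_univ, true_and]
    rw [Fin.ext_iff]
  · apply exists_unique_of_cnt_eq_one
    rw [cnt_eq_card, ← h2 v i.1 i.2]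
    congr 1
    ext e
    simp only [Finset.mem_filter, Finset.mem_univ, true_and]
    rw [Fin.ext_iff]

theorem cnt_arc_fst {X : Type} [Fintype X] (N : X → X → Prop)
    [Fintype {p : X × X // N p.1 p.2}] (u : X) :
    cnt (fun e : {p : X × X // N p.1 p.2} => e.1.1 = u) = outd N u := by
  classical
  unfold outd
  rw [cnt_eq_card, cnt_eq_card]
  refine Finset.card_bij (fun e _ => e.1.2) ?_ ?_ ?_
  · rintro ⟨⟨a, b⟩, h⟩ he
    simp only [Finset.mem_filter, Finset.mem_univ, true_and] at he ⊢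
    rw [← he]
    exact h
  · rintro ⟨⟨a, b⟩, h⟩ he ⟨⟨a', b'⟩, h'⟩ he' hab
    simp only [Finset.mem_filter, Finset.mem_univ, true_and] at he he' hab
    subst he
    subst he'
    subst hab
    rfl
  · intro v hv
    simp only [Finset.mem_filter, Finset.mem_univ, true_and] at hv
    exact ⟨⟨(u, v), hv⟩, by simp, rfl⟩

theorem cnt_arc_snd {X : Type} [Fintype X] (N : X → X → Prop)
    [Fintype {p : X × X // N p.1 p.2}] (v : X) :
    cnt (fun e : {p : X × X // N p.1 p.2} => e.1.2 = v) = indg N v := by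
  classical
  unfold indg
  rw [cnt_eq_card, cnt_eq_card]
  refine Finset.card_bij (fun e _ => e.1.1) ?_ ?_ ?_
  · rintro ⟨⟨a, b⟩, h⟩ he
    simp only [Finset.mem_filter, Finset.mem_univ, true_and] at he ⊢
    rw [← he]
    exact h
  · rintro ⟨⟨a, b⟩, h⟩ he ⟨⟨a', b'⟩, h'⟩ he' hab
    simp only [Finset.mem_filter, Finset.mem_univ, true_and] at he he' hab
    subst he
    subst he'
    subst hab
    rfl
  · intro u hu
    simp only [Finset.mem_filter, Finset.mem_univ, true_and] at hu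
    exact ⟨⟨(u, v), hu⟩, by simp, rfl⟩

/-- The triples of the base case, for a colouring `Cl` of the arcs. -/
def baseT {W : Type} {k : ℕ} [NeZero k] (Cl : Fin k → W → W → Prop) :
    (W ⊕ Fin k) → (W ⊕ Fin k) → (W ⊕ Fin k) → Prop
  | .inl u, .inl v, .inr i => Cl i u v
  | .inl v, .inr i, .inl u => Cl i u v
  | .inr i, .inl u, .inl v => Cl i u v
  | .inr i, .inr j, .inr l => i + j + l = 0
  | _, _, _ => False

theorem base {W : Type} [Fintype W] (N : W → W → Prop) (k : ℕ) (hk : 0 < k)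
    (ho : ∀ w, outd N w = k) (hi : ∀ w, indg N w = k) (f : W × W) (hf : N f.1 f.2) :
    Compl N (Fin k) f := by
  classical
  have : NeZero k := ⟨hk.ne'⟩
  obtain ⟨c, hc1, hc2⟩ := konig_fin (fun e : {p : W × W // N p.1 p.2} => e.1.1)
    (fun e : {p : W × W // N p.1 p.2} => e.1.2) k
    (fun u => by rw [cnt_arc_fst]; exact ho u) (fun v => by rw [cnt_arc_snd]; exact hi v)
  set c0 : Fin k := c ⟨f, hf⟩ with hc0
  let Cl : Fin k → W → W → Prop := fun i u v => ∃ h : N u v, c ⟨(u, v), h⟩ = i + c0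
  have hfun1 : ∀ i u v v', Cl i u v → Cl i u v' → v = v' := by
    rintro i u v v' ⟨h, hc⟩ ⟨h', hc'⟩
    have := (hc1 u (i + c0)).unique (y₁ := ⟨(u, v), h⟩) (y₂ := ⟨(u, v'), h'⟩) ⟨rfl, hc⟩ ⟨rfl, hc'⟩
    exact congrArg (fun e : {p : W × W // N p.1 p.2} => e.1.2) this
  have hfun2 : ∀ i u u' v, Cl i u v → Cl i u' v → u = u' := by
    rintro i u u' v ⟨h, hc⟩ ⟨h', hc'⟩
    have := (hc2 v (i + c0)).unique (y₁ := ⟨(u, v), h⟩) (y₂ := ⟨(u', v), h'⟩) ⟨rfl, hc⟩ ⟨rfl, hc'⟩
    exact congrArg (fun e : {p : W × W // N p.1 p.2} => e.1.1) this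
  have hex1 : ∀ i u, ∃ v, Cl i u v := by
    intro i u
    obtain ⟨⟨⟨a, b⟩, h⟩, hab, hcc⟩ := (hc1 u (i + c0)).exists
    simp only at hab
    subst hab
    exact ⟨b, h, hcc⟩
  have hex2 : ∀ i v, ∃ u, Cl i u v := by
    intro i v
    obtain ⟨⟨⟨a, b⟩, h⟩, hab, hcc⟩ := (hc2 v (i + c0)).exists
    simp only at hab
    subst hab
    exact ⟨a, h, hcc⟩
  have hcol : ∀ i j u v, Cl i u v → Cl j u v → i = j := by
    rintro i j u v ⟨h, hc⟩ ⟨h', hc'⟩
    exact add_right_cancel (hc.symm.trans hc')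
  refine ⟨baseT Cl, ⟨?_, ?_⟩, ?_, 0, ?_, ?_⟩
  · intro x y z h
    rcases x with x | x <;> rcases y with y | y <;> rcases z with z | z <;>
      simp only [baseT] at h ⊢
    · exact h
    · exact h
    · exact h
    · exact (add_rotate x y z).symm.trans h
  · intro x y z z' h h'
    rcases x with x | x <;> rcases y with y | y <;> rcases z with z | z <;>
      rcases z' with z' | z' <;> simp only [baseT] at h h'
    · rw [hcol _ _ _ _ h h']
    · rw [hfun2 _ _ _ _ h h']
    · rw [hfun1 _ _ _ _ h h']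
    · rw [add_left_cancel (h.trans h'.symm)]
  · intro x y
    rcases x with x | x <;> rcases y with y | y
    · simp only [G, Dom]
      constructor
      · rintro ⟨z, hz⟩
        rcases z with z | z
        · exact hz.elim
        · obtain ⟨h, _⟩ := hz
          exact h
      · intro h
        refine ⟨.inr (c ⟨(x, y), h⟩ - c0), h, ?_⟩
        rw [sub_add_cancel]
    · simp only [G, Dom, iff_true]
      obtain ⟨u, hu⟩ := hex2 y x
      exact ⟨.inl u, hu⟩
    · simp only [G, Dom, iff_true]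
      obtain ⟨v, hv⟩ := hex1 x y
      exact ⟨.inl v, hv⟩
    · simp only [G, Dom, iff_true]
      refine ⟨.inr (-(x + y)), ?_⟩
      simp only [baseT]
      exact add_neg_cancel _
  · refine ⟨hf, ?_⟩
    rw [zero_add]
  · simp only [baseT]
    rw [add_zero, add_zero]

end Pool.Agent.Helper40.SSQ
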