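import Mathlib
import Pool.Agent.Helper40.SSQ.Defs
import Pool.Agent.Helper74.SSQ.Color
import Pool.Agent.Helper4.SSQ.Base

/-! Module SSQ-J: three colours, total deficiency three. -/

set_option autoImplicit false

namespace Pool.Agent.Helper40.SSQ

open Finset

/-- The triples on the three colours: they cover the pairs `(x, y)` with `y ≠ ω x`. -/
def k3T (ω : Equiv.Perm (Fin 3)) (x y z : Fin 3) : Prop :=
  y ≠ ω x ∧ z ≠ ω y ∧ x ≠ ω z ∧ ¬ (x = y ∧ y = z ∧ ∃ s, ω s = s)

instance (ω : Equiv.Perm (Fin 3)) (x y z : Fin 3) : Decidable (k3T ω x y z) := by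
  unfold k3T; infer_instance

theorem k3T_rot : ∀ (ω : Equiv.Perm (Fin 3)) (x y z : Fin 3), k3T ω x y z → k3T ω y z x := by
  decide +kernel

theorem k3T_func : ∀ (ω : Equiv.Perm (Fin 3)) (x y z z' : Fin 3), k3T ω x y z → k3T ω x y z' →
    z = z' := by
  decide +kernel

theorem k3T_dom : ∀ (ω : Equiv.Perm (Fin 3)) (x y : Fin 3), (∃ z, k3T ω x y z) ↔ y ≠ ω x := by
  decide +kernel

theorem cnt_sigma_fst {X : Type} [Fintype X] (g : X → ℕ) (u : X) :
    cnt (fun d : (Σ x, Fin (g x)) => d.1 = u) = g u := by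
  classical
  unfold cnt
  rw [Fintype.sum_sigma]
  simp only [Finset.sum_const, Finset.card_univ, Fintype.card_fin, smul_eq_mul]
  rw [Finset.sum_eq_single u]
  · simp
  · intro b _ hb
    rw [b2n_neg hb, mul_zero]
  · intro h
    exact absurd (Finset.mem_univ _) h

/-- The triples for `k3v3`. -/
def k3v3T {X : Type} (Cl : Fin 3 → X → X → Prop) (ω : Equiv.Perm (Fin 3)) (q : Fin 3 → X) :
    (X ⊕ Fin 3) → (X ⊕ Fin 3) → (X ⊕ Fin 3) → Prop
  | .inl u, .inl v, .inr i => Cl i u v
  | .inl v, .inr i, .inl u => Cl i u v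
  | .inr i, .inl u, .inl v => Cl i u v
  | .inr i, .inr j, .inl x => j = ω i ∧ x = q i
  | .inr j, .inl x, .inr i => j = ω i ∧ x = q i
  | .inl x, .inr i, .inr j => j = ω i ∧ x = q i
  | .inr i, .inr j, .inr l => k3T ω i j l
  | _, _, _ => False

theorem k3v3 {X : Type} [Fintype X] (N : X → X → Prop) (hbal : ∀ x, outd N x = indg N x)
    (hle : ∀ x, outd N x ≤ 3) (hv : ∑ x, (3 - outd N x) = 3) : Good N (Fin 3) := by
  classical
  let D := Σ x : X, Fin (3 - outd N x)
  let A := {p : X × X // N p.1 p.2}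
  have hD : Fintype.card D = 3 := by
    simp only [D, Fintype.card_sigma, Fintype.card_fin]
    exact hv
  let l : A ⊕ (D ⊕ D) → Option X := Sum.elim (fun a => some a.1.1)
    (Sum.elim (fun d => some d.1) (fun _ => none))
  let r : A ⊕ (D ⊕ D) → Option X := Sum.elim (fun a => some a.1.2)
    (Sum.elim (fun _ => none) (fun d => some d.1))
  obtain ⟨c, hc1, hc2⟩ := konig_fin l r 3 (by
    intro u
    rw [cnt_sum, cnt_sum]
    rcases u with _ | u
    · have e1 : cnt (fun w : A => l (.inl w) = none) = 0 := by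
        rw [cnt_eq_zero]; intro w; simp [l]
      have e2 : cnt (fun w : D => l (.inr (.inl w)) = none) = 0 := by
        rw [cnt_eq_zero]; intro w; simp [l]
      have e3 : cnt (fun w : D => l (.inr (.inr w)) = none) = 3 := by
        rw [cnt_congr (q := fun _ => True) (fun w => by simp [l]), cnt_true, hD]
      rw [e1, e2, e3]
    · have e1 : cnt (fun w : A => l (.inl w) = some u) = outd N u := by
        rw [← cnt_arc_fst N u]; exact cnt_congr (fun w => by simp [l, A])
      have e2 : cnt (fun w : D => l (.inr (.inl w)) = some u) = 3 - outd N u := by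
        rw [← cnt_sigma_fst (fun x => 3 - outd N x) u]; exact cnt_congr (fun w => by simp [l])
      have e3 : cnt (fun w : D => l (.inr (.inr w)) = some u) = 0 := by
        rw [cnt_eq_zero]; intro w; simp [l]
      rw [e1, e2, e3]
      have := hle u
      omega) (by
    intro u
    rw [cnt_sum, cnt_sum]
    rcases u with _ | u
    · have e1 : cnt (fun w : A => r (.inl w) = none) = 0 := by
        rw [cnt_eq_zero]; intro w; simp [r]
      have e2 : cnt (fun w : D => r (.inr (.inl w)) = none) = 3 := by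
        rw [cnt_congr (q := fun _ => True) (fun w => by simp [r]), cnt_true, hD]
      have e3 : cnt (fun w : D => r (.inr (.inr w)) = none) = 0 := by
        rw [cnt_eq_zero]; intro w; simp [r]
      rw [e1, e2, e3]
    · have e1 : cnt (fun w : A => r (.inl w) = some u) = outd N u := by
        rw [hbal u, ← cnt_arc_snd N u]; exact cnt_congr (fun w => by simp [r, A])
      have e2 : cnt (fun w : D => r (.inr (.inl w)) = some u) = 0 := by
        rw [cnt_eq_zero]; intro w; simp [r]
      have e3 : cnt (fun w : D => r (.inr (.inr w)) = some u) = 3 - outd N u := by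
        rw [← cnt_sigma_fst (fun x => 3 - outd N x) u]; exact cnt_congr (fun w => by simp [r])
      rw [e1, e2, e3]
      have := hle u
      omega)
  -- the dummies
  have hb1 : Function.Bijective (fun d : D => c (.inr (.inl d))) := by
    constructor
    · intro d d' h
      have := (hc2 none (c (.inr (.inl d)))).unique (y₁ := .inr (.inl d)) (y₂ := .inr (.inl d'))
        ⟨rfl, rfl⟩ ⟨rfl, h.symm⟩
      simpa using this
    · intro i
      obtain ⟨e, he, hi⟩ := (hc2 none i).exists
      rcases e with a | d | d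
      · simp [r] at he
      · exact ⟨d, hi⟩
      · simp [r] at he
  have hb2 : Function.Bijective (fun d : D => c (.inr (.inr d))) := by
    constructor
    · intro d d' h
      have := (hc1 none (c (.inr (.inr d)))).unique (y₁ := .inr (.inr d)) (y₂ := .inr (.inr d'))
        ⟨rfl, rfl⟩ ⟨rfl, h.symm⟩
      simpa using this
    · intro i
      obtain ⟨e, he, hi⟩ := (hc1 none i).exists
      rcases e with a | d | d
      · simp [l] at he
      · simp [l] at he
      · exact ⟨d, hi⟩
  let f1 := Equiv.ofBijective _ hb1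
  let f2 := Equiv.ofBijective _ hb2
  let ω : Equiv.Perm (Fin 3) := f2.symm.trans f1
  let p : Fin 3 → X := fun i => (f1.symm i).1
  let q : Fin 3 → X := fun i => (f2.symm i).1
  have hqp : ∀ i, q i = p (ω i) := by
    intro i
    simp only [p, q, ω, Equiv.trans_apply, Equiv.symm_apply_apply]
  let Cl : Fin 3 → X → X → Prop := fun i u v => ∃ h : N u v, c (.inl ⟨(u, v), h⟩) = i
  have hfun1 : ∀ i u v v', Cl i u v → Cl i u v' → v = v' := by
    rintro i u v v' ⟨h, hc⟩ ⟨h', hc'⟩
    have := (hc1 (some u) i).unique (y₁ := .inl ⟨(u, v), h⟩) (y₂ := .inl ⟨(u, v'), h'⟩)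
      ⟨rfl, hc⟩ ⟨rfl, hc'⟩
    exact congrArg (fun e : {p : X × X // N p.1 p.2} => e.1.2) (Sum.inl.inj this)
  have hfun2 : ∀ i u u' v, Cl i u v → Cl i u' v → u = u' := by
    rintro i u u' v ⟨h, hc⟩ ⟨h', hc'⟩
    have := (hc2 (some v) i).unique (y₁ := .inl ⟨(u, v), h⟩) (y₂ := .inl ⟨(u', v), h'⟩)
      ⟨rfl, hc⟩ ⟨rfl, hc'⟩
    exact congrArg (fun e : {p : X × X // N p.1 p.2} => e.1.1) (Sum.inl.inj this)
  have hcol : ∀ i j u v, Cl i u v → Cl j u v → i = j := by
    rintro i j u v ⟨h, hc⟩ ⟨h', hc'⟩
    exact hc.symm.trans hc'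
  -- the missing colours
  have hex1 : ∀ i u, (∃ v, Cl i u v) ↔ u ≠ p i := by
    intro i u
    constructor
    · rintro ⟨v, h, hc⟩ hu
      have h1 : c (.inr (.inl (f1.symm i))) = i := f1.apply_symm_apply i
      have := (hc1 (some u) i).unique (y₁ := .inl ⟨(u, v), h⟩) (y₂ := .inr (.inl (f1.symm i)))
        ⟨rfl, hc⟩ ⟨by simp only [l, Sum.elim_inr, Sum.elim_inl]; rw [hu], h1⟩
      exact absurd this (by simp)
    · intro hu
      obtain ⟨e, he, hi⟩ := (hc1 (some u) i).exists
      rcases e with ⟨⟨a, b⟩, h⟩ | d | d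
      · simp only [l, Sum.elim_inl, Option.some.injEq] at he
        subst he
        exact ⟨b, h, hi⟩
      · simp only [l, Sum.elim_inl, Sum.elim_inr, Option.some.injEq] at he
        exfalso
        apply hu
        have h1 : f1 d = i := hi
        rw [← h1]
        simp only [p, Equiv.symm_apply_apply]
        exact he.symm
      · simp [l] at he
  have hex2 : ∀ i v, (∃ u, Cl i u v) ↔ v ≠ q i := by
    intro i v
    constructor
    · rintro ⟨u, h, hc⟩ hu
      have h1 : c (.inr (.inr (f2.symm i))) = i := f2.apply_symm_apply i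
      have := (hc2 (some v) i).unique (y₁ := .inl ⟨(u, v), h⟩) (y₂ := .inr (.inr (f2.symm i)))
        ⟨rfl, hc⟩ ⟨by simp only [r, Sum.elim_inr]; rw [hu], h1⟩
      exact absurd this (by simp)
    · intro hu
      obtain ⟨e, he, hi⟩ := (hc2 (some v) i).exists
      rcases e with ⟨⟨a, b⟩, h⟩ | d | d
      · simp only [r, Sum.elim_inl, Option.some.injEq] at he
        subst he
        exact ⟨a, h, hi⟩
      · simp [r] at he
      · simp only [r, Sum.elim_inr, Option.some.injEq] at he
        exfalso
        apply hu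
        have h1 : f2 d = i := hi
        rw [← h1]
        simp only [q, Equiv.symm_apply_apply]
        exact he.symm
  refine ⟨k3v3T Cl ω q, ⟨?_, ?_⟩, ?_⟩
  · intro x y z h
    rcases x with x | x <;> rcases y with y | y <;> rcases z with z | z <;>
      simp only [k3v3T] at h ⊢
    · exact h
    · exact h
    · exact h
    · exact h
    · exact h
    · exact h
    · exact k3T_rot ω _ _ _ h
  · intro x y z z' h h'
    rcases x with x | x <;> rcases y with y | y <;> rcases z with z | z <;>
      rcases z' with z' | z' <;> simp only [k3v3T] at h h'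
    · rw [hcol _ _ _ _ h h']
    · rw [hfun2 _ _ _ _ h h']
    · exact absurd h'.2 ((hex2 y x).1 ⟨z, h⟩)
    · exact absurd h.2 ((hex2 y x).1 ⟨z', h'⟩)
    · rw [h.1, h'.1]
    · rw [hfun1 _ _ _ _ h h']
    · refine absurd ?_ ((hex1 x y).1 ⟨z, h⟩)
      rw [h'.2, hqp, h'.1]
    · refine absurd ?_ ((hex1 x y).1 ⟨z', h'⟩)
      rw [h.2, hqp, h.1]
    · rw [ω.injective (h.1.symm.trans h'.1)]
    · rw [h.2, h'.2]
    · exact absurd h.1 ((k3T_dom ω x y).1 ⟨z', h'⟩)
    · exact absurd h'.1 ((k3T_dom ω x y).1 ⟨z, h⟩)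
    · rw [k3T_func ω _ _ _ _ h h']
  · intro x y
    rcases x with x | x <;> rcases y with y | y
    · simp only [G, Dom]
      constructor
      · rintro ⟨z, hz⟩
        rcases z with z | z
        · exact hz.elim
        · obtain ⟨h, _⟩ := hz
          exact h
      · intro h
        exact ⟨.inr (c (.inl ⟨(x, y), h⟩)), h, rfl⟩
    · simp only [G, Dom, iff_true]
      by_cases hx : x = q y
      · exact ⟨.inr (ω y), rfl, hx⟩
      · obtain ⟨u, hu⟩ := (hex2 y x).2 hx
        exact ⟨.inl u, hu⟩
    · simp only [G, Dom, iff_true]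
      by_cases hy : y = p x
      · refine ⟨.inr (ω.symm x), ?_, ?_⟩
        · rw [Equiv.apply_symm_apply]
        · rw [hqp, Equiv.apply_symm_apply]
          exact hy
      · obtain ⟨v, hv⟩ := (hex1 x y).2 hy
        exact ⟨.inl v, hv⟩
    · simp only [G, Dom, iff_true]
      by_cases hy : y = ω x
      · exact ⟨.inl (q x), hy, rfl⟩
      · obtain ⟨z, hz⟩ := (k3T_dom ω x y).2 hy
        exact ⟨.inr z, hz⟩

end Pool.Agent.Helper40.SSQ
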